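import Pool.Agent.T9h6.BD.Defs

/-!
# Reflection for proofs with few variables, in one axiom: definitions
-/

set_option autoImplicit false

namespace Pool.Agent.T9h6.BE

open Pool.Agent.TH672 (Fm)
open Pool.Agent.TH636.BC
open Pool.Agent.T9h6.BD (instD refl)

/-- The formula `J (v₃)`: `v₃` is a number, and there are nodes `v₃₃` and `v₃₅` whose colour `v₃₇` is
not less than `v₃`. -/
def J : Fml :=
  .and (nat 3) (.ex 33 (.ex 35 (.ex 37 (.and (col 33 35 37) (.neg (lt 37 3))))))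

/-- The axiom of reflection: if for some number `k` with `J (k)` and some number `x` with
`x ≠ x + 1` the formula `W` is true of the code of the list `φ :: W :: Γ`, of `k` and of `x`,
then `φ`. -/
def reflJ (W : Fml) (Γ : List Fml) (φ : Fml) : Fml :=
  .imp (.ex 3 (.and J (.ex 4 (.and (.neg (.succ 4 4)) (instD 2 (strs (φ :: W :: Γ)) W))))) φ

/-- `ψ` is an axiom of the `k`-th theory `T_k (Γ)`: it belongs to `Γ` or to `S`, or it is, for some
`j < k` and some `φ` in `F`, the axiom `refl W Γ j φ`. -/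
def AxK (S F : Fml → Prop) (W : Fml) (Γ : List Fml) (k : ℕ) (ψ : Fml) : Prop :=
  ψ ∈ Γ ∨ S ψ ∨ ∃ j < k, ∃ φ, F φ ∧ ψ = refl W Γ j φ

/-- `T_k (Γ)` has a proof of `φ` of length at most `x` in which only the variables
`0`, ..., `k - 1` occur (free or bound). -/
def PrK (S F : Fml → Prop) (W : Fml) (Γ : List Fml) (k x : ℕ) (φ : Fml) : Prop :=
  ∃ Δ π : List Fml, (∀ ψ ∈ Δ, AxK S F W Γ k ψ) ∧ IsProof Δ (φ :: π) ∧ (∀ ψ ∈ φ :: π, Vlt k ψ) ∧
    (strs (φ :: π)).length ≤ x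

/-- `c` is the code of the list `φ :: W :: Γ`, and `T_k (Γ)` has a proof of `φ` of length at most
`x` in which only the variables `0`, ..., `k - 1` occur. -/
def PRel (S F : Fml → Prop) (c k x : ℕ) : Prop :=
  ∃ (φ W : Fml) (Γ : List Fml), c = code (φ :: W :: Γ) ∧ PrK S F W Γ k x φ

/-- `ψ` is an axiom of the theory `T (Γ)`: it belongs to `Γ` or to `S`, or it is the axiom
`reflJ V Γ φ` for some `φ` in `F`. -/
def AxT (S F : Fml → Prop) (V : Fml) (Γ : List Fml) (ψ : Fml) : Prop :=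
  ψ ∈ Γ ∨ S ψ ∨ ∃ φ, F φ ∧ ψ = reflJ V Γ φ

/-- `T (Γ) ⊢^y φ`. -/
def ProvesT (S F : Fml → Prop) (V : Fml) (Γ : List Fml) (y : ℕ) (φ : Fml) : Prop :=
  ∃ Δ : List Fml, (∀ ψ ∈ Δ, AxT S F V Γ ψ) ∧ Proves Δ y φ

/-- `c` is the code of a list `Γ` of formulas, `d` is the code of a formula `φ`, and
`T (Γ) ⊢^y φ`. -/
def TRel (S F : Fml → Prop) (V : Fml) (c y d : ℕ) : Prop :=
  ∃ (Γ : List Fml) (φ : Fml), c = code Γ ∧ d = code [φ] ∧ ProvesT S F V Γ y φ

end Pool.Agent.T9h6.BE
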