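import Pool.Agent.T9h6.BC.Up
import Pool.Agent.T9h6.BE.Defs

/-!
# The short derivations of `J (n)`
-/

set_option autoImplicit false

namespace Pool.Agent.T9h6.BE

open Pool.Agent.TH672 (Fm Str upd varStr num digits LogK ReplK Sw Pv)
open Pool.Agent.TH672.Form (ren)
open Pool.Agent.TH636.BC
open Pool.Agent.TH838.J1549 (sat_cong sat_inst free_inst Q exists_Q closed_robinson free_iter)
open Pool.Agent.T9h6.BC

/-- The theory proves the instances of a formula which follows from the end of the induction by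
short derivations of bounded complexity. -/
theorem upperG {P : Fml} (hA : Arith P) {Θ : Fml} (hΘf : ∀ x, Θ.Free x → x = 3)
    (hΘn : NoPl Θ)
    (hΘ : Pv (fun ψ => ψ ∈ Ax P) (.imp (Jf B0 0) (.all 3 (.imp (.eq 3 0) Θ)))) :
    ∃ k C, ∀ n, ∃ π, IsProof (Ax P) (inst 3 n Θ :: π) ∧
      (strs (inst 3 n Θ :: π)).length ≤ C * (n + 1) ^ 4 ∧
      ∀ ψ ∈ inst 3 n Θ :: π, Cx true k ψ := by
  obtain ⟨C, N1, hC1, hN1, hstep⟩ := exists_step
  obtain ⟨CI, hCI, hI⟩ := exists_tdI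
  obtain ⟨Ce, Ne, -, he⟩ := transfer hΘ
  obtain ⟨Cb, Nb, -, hb⟩ := transfer pv_base
  obtain ⟨Cs, hCs, hs⟩ := rule_syl
  obtain ⟨Ψ, hΨ⟩ : ∃ Ψ : Fml, Ψ = .all 3 (.imp (.eq 3 0) Θ) := ⟨_, rfl⟩
  obtain ⟨N0, hN0⟩ : ∃ N0, N0 = N1 + Ne + Nb := ⟨_, rfl⟩
  obtain ⟨k, hk⟩ : ∃ k, k = 12 + qd Ψ + CI + Ce + Cb + Cs := ⟨_, rfl⟩
  have hcon : ∀ n, inst 3 n Θ = .all 0 (.imp (.zero 0) (blk^[n] Ψ)) := fun n => by
    rw [hΨ]; rfl
  have hΨf : ∀ x, N0 ≤ x → ¬ Ψ.Free x := fun x hx hf => by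
    rw [hΨ] at hf
    obtain ⟨h1, (h2 | h2) | h2⟩ := hf
    · omega
    · omega
    · have h3 := hΘf x h2
      omega
  have hWf : ∀ j x, N0 ≤ x → ¬ (blk^[j] Ψ).Free x := fun j x hx hf => by
    rcases free_iter j hf with h | h
    · omega
    · exact hΨf x hx h
  have hΨc : Cx false k Ψ := (both_qd Ψ false).mono (by omega)
  obtain ⟨D, hD⟩ : ∃ D, D = Ce * CI + Cb * CI + Cs + 1 := ⟨_, rfl⟩
  -- the derivations
  have main : ∀ n : ℕ, Dv (Ax P) (k + C + Cs + 1) (C * (20 * D * (sz Ψ + 33 * n + MU N0 n)))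
      ((C + D + 10) * (n + 1) ^ 2) (inst 3 n Θ) := by
    intro n
    obtain ⟨M0, hM0⟩ : ∃ M0, M0 = sz Ψ + 33 * n + MU N0 n := ⟨_, rfl⟩
    obtain ⟨M, hM⟩ : ∃ M, M = 20 * D * M0 := ⟨_, rfl⟩
    rw [← hM0, ← hM]
    have hMU := MU_pos N0 n
    have hD1 : 1 ≤ D := by omega
    have hM0M : 20 * M0 ≤ M := by rw [hM]; nlinarith
    have hMUM : MU N0 n ≤ M := by omega
    have hsW : ∀ j ≤ n, sz (blk^[j] Ψ) ≤ M0 := fun j hj => by
      rw [sz_iter, hM0]; omega
    have hCM : M ≤ C * M := Nat.le_mul_of_pos_left _ hC1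
    have hDM : D * MU N0 n ≤ M := by rw [hM]; nlinarith
    -- the end
    have E0 : Dv (Ax P) (k + C) (C * M) (Ce * CI * (n + 1)) (.imp (Jf (Uf N0 n) 0) Ψ) := by
      have := he (tdI N0 n) (Ax P) CI (CI * MU N0 n) (CI * (n + 1))
        (hI (Ax P) Ne N0 n n (by omega) le_rfl) (by nlinarith) (by nlinarith)
        (fun ψ hψ => by rw [tdI_noPl (noPl_Ax hA ψ hψ)]; exact hψ)
      have e : (tdI N0 n).tr (.imp (Jf B0 0) (.all 3 (.imp (.eq 3 0) Θ))) =
          .imp (Jf (Uf N0 n) 0) Ψ := by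
        have e1 : (tdI N0 n).tr Θ = Θ := tdI_noPl hΘn
        rw [hΨ]
        show Fm.imp (Jf (Uf N0 n) 0) (.all 3 (.imp (.eq 3 0) ((tdI N0 n).tr Θ))) = _
        rw [e1]
      rw [e] at this
      refine this.mono (by omega) ?_ (by rw [mul_assoc])
      refine le_trans ?_ hCM
      refine le_trans ?_ hDM
      rw [← mul_assoc]
      exact Nat.mul_le_mul_right _ (by omega)
    -- the induction
    have E1 : ∀ j ≤ n, Dv (Ax P) (k + C) (C * M) (Ce * CI * (n + 1) + j * (C * (n + 1)))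
        (.imp (Jf (Uf N0 (n - j)) 0) (blk^[j] Ψ)) := by
      intro j
      induction j with
      | zero => intro _; simpa using E0
      | succ j ih =>
        intro hj
        have h1 := ih (by omega)
        have e : n - j = n - (j + 1) + 1 := by omega
        rw [e] at h1
        have h2 := hstep (Ax P) N0 n (n - (j + 1)) k M _ (blk^[j] Ψ) (by omega)
          (fun ψ hψ => by simp [Ax, TB, hψ]) (by omega) (by omega) (cx_iter (by omega) hΨc j)
          (hWf j) hMUM ((hsW j (by omega)).trans (by omega)) h1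
        rw [Function.iterate_succ_apply']
        refine h2.mono le_rfl le_rfl ?_
        rw [add_mul, one_mul, add_assoc]
    have E2 := E1 n le_rfl
    rw [Nat.sub_self] at E2
    -- the base
    have E3 : Dv (Ax P) (k + C) (C * M) (Cb * CI * (n + 1)) (.imp (.zero 0) (Jf (Uf N0 0) 0)) := by
      have := hb (tdI N0 0) (Ax P) CI (CI * MU N0 n) (CI * (n + 1))
        (hI (Ax P) Nb N0 n 0 (by omega) (by omega)) (by nlinarith) (by nlinarith)
        (fun ψ hψ => by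
          have hψ' : ψ ∈ Ax P := by simp [Ax, TB, hψ]
          rw [tdI_noPl (noPl_Ax hA ψ hψ')]; exact hψ')
      have e : (tdI N0 0).tr (.imp (.zero 0) (Jf (fun _ => .imp .bot .bot) 0)) =
          .imp (.zero 0) (Jf (Uf N0 0) 0) := rfl
      rw [e] at this
      refine this.mono (by omega) ?_ (by rw [mul_assoc])
      refine le_trans ?_ hCM
      refine le_trans ?_ hDM
      rw [← mul_assoc]
      exact Nat.mul_le_mul_right _ (by omega)
    have s0 : sz (Jf (Uf N0 0) 0) ≤ 10 * MU N0 n := sz_Jf (by omega) (Nat.zero_le _)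
    have b0 : Both (k + 1) (Jf (Uf N0 0) 0) := (both_Jf N0 0 0).mono (by omega)
    have cW : Cx false k (blk^[n] Ψ) := cx_iter (by omega) hΨc n
    have bW : Both (k + 1) (blk^[n] Ψ) := fun s => cW.lift
    have E4 : Dv (Ax P) (k + C + Cs + 1) (C * M) Cs (.imp (.imp (.zero 0) (Jf (Uf N0 0) 0))
        (.imp (.imp (Jf (Uf N0 0) 0) (blk^[n] Ψ)) (.imp (.zero 0) (blk^[n] Ψ)))) := by
      refine (hs (Ax P) (k + 1) (11 * M0) (.zero 0) (Jf (Uf N0 0) 0) (blk^[n] Ψ)
        (fun s => .zero _ _ _) b0 bW ?_ ?_ ?_).mono ?_ ?_ le_rfl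
      · simp only [sz_zero]; omega
      · omega
      · exact (hsW n le_rfl).trans (by omega)
      · omega
      · refine le_trans ?_ hCM
        rw [hM]
        have : Cs * (11 * M0 + 1) ≤ Cs * (20 * M0) := Nat.mul_le_mul_left _ (by omega)
        refine this.trans ?_
        have h3 : Cs * (20 * M0) ≤ D * (20 * M0) := Nat.mul_le_mul_right _ (by omega)
        refine h3.trans (le_of_eq ?_)
        ring
    have E5 := (E4.mp (E3.mono (by omega) le_rfl le_rfl)).mp (E2.mono (by omega) le_rfl le_rfl)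
    have E6 := E5.gen 0 (by omega) (by
      have := hsW n le_rfl
      rw [sz_all, sz_imp, sz_zero]
      omega)
    rw [hcon]
    refine E6.mono le_rfl le_rfl ?_
    rw [hD]
    generalize Ce * CI = u
    generalize Cb * CI = w
    nlinarith [Nat.zero_le (u * n), Nat.zero_le (w * n), Nat.zero_le (u * n ^ 2),
      Nat.zero_le (w * n ^ 2), Nat.zero_le (Cs * n), Nat.zero_le (Cs * n ^ 2), Nat.zero_le (C * n),
      Nat.zero_le (C * n ^ 2)]
  refine ⟨k + C + Cs + 1 + 1, (C + D + 10) * (C * (20 * D * (sz Ψ + 33 + (100 + 100 * N0)))),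
    fun n => ?_⟩
  obtain ⟨π, h1, h2, h3⟩ := main n
  refine ⟨π, h1, (length_strs fun ψ hψ => (h3 ψ hψ).sz).trans ?_, fun ψ hψ => (h3 ψ hψ).cx.lift⟩
  refine (Nat.mul_le_mul_right _ h2).trans ?_
  have e1 : sz Ψ + 33 * n + MU N0 n ≤ (sz Ψ + 33 + (100 + 100 * N0)) * (n + 1) ^ 2 := by
    unfold MU
    nlinarith [Nat.zero_le (sz Ψ * n), Nat.zero_le (sz Ψ * n ^ 2), Nat.zero_le (n ^ 2)]
  calc (C + D + 10) * (n + 1) ^ 2 * (C * (20 * D * (sz Ψ + 33 * n + MU N0 n)))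
      ≤ (C + D + 10) * (n + 1) ^ 2 * (C * (20 * D * ((sz Ψ + 33 + (100 + 100 * N0)) *
        (n + 1) ^ 2))) := by gcongr
    _ = _ := by ring

/-- The formula `J` follows from the end of the induction. -/
theorem pv_J {P : Fml} (hP : Fr P) : Pv (fun ψ => ψ ∈ Ax P)
    (.imp (Jf B0 0) (.all 3 (.imp (.eq 3 0) J))) := by
  refine pv_of_valid (closed_Ax hP) fun S hS v => ?_
  have u : ∀ (w : ℕ → S.M) (x : ℕ) (a : S.M) (y : ℕ), upd w x a y = if y = x then a else w y :=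
    fun _ _ _ _ => rfl
  simp only [Fm.sat_imp, Fm.sat_all, Fm.sat_eq]
  intro hJ a ha
  have h := t0s_of (v := v) fun ψ hψ => hS ψ (by simp [Ax, TB, hψ]) v
  rw [sat_Jf (B := fun a => S.op 6 a a a a) (.inl rfl) fun a _ _ w _ => Iff.rfl] at hJ
  have ha' : a = v 0 := by simpa [upd] using ha
  obtain ⟨h1, x, y, c, h2, h3⟩ := js_end h hJ
  simp only [J, nat, col, lt, Fm.sat_and, Fm.sat_ex, Fm.sat_op, Fm.sat_neg]
  refine ⟨by simpa [u, ha'] using h1, x, y, c, by simpa [u] using h2, ?_⟩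
  simpa [u, ha'] using h3

/-- The sentences `J (n)` have short proofs of bounded complexity. -/
theorem upperJ {P : Fml} (hP : Fr P) (hA : Arith P) :
    ∃ k C, ∀ n, ∃ π, IsProof (Ax P) (inst 3 n J :: π) ∧
      (strs (inst 3 n J :: π)).length ≤ C * (n + 1) ^ 4 ∧
      ∀ ψ ∈ inst 3 n J :: π, Cx true k ψ := by
  refine upperG hA (fun x hx => ?_) ?_ (pv_J hP)
  · simp only [J, nat, col, lt, Fm.and, Fm.ex, Fm.neg, Fm.Free, or_false] at hx
    omega
  · simp only [J, nat, col, lt, Fm.and, Fm.ex, Fm.neg, NoPl]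
    simp

end Pool.Agent.T9h6.BE
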