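import Pool.Agent.T9h6.BE.Defs
import Pool.Agent.T9h6.BD.Rel

/-!
# Decidability of the relations
-/

set_option autoImplicit false

namespace Pool.Agent.T9h6.BE

open Pool.Agent.TH672 (Fm varStr num digits LogK)
open Pool.Agent.TH636.BC
open Pool.Agent.TH955.J1547 (p_var isF isF_primrec isF_iff gnLog gn_inj)
open Pool.Agent.TH554.J1548 (lsts mem_lsts lsts_primrec Chk chk_primrec isPf_iff sL sL_map sL_primrec
  exists_map length_le_strs length_le_num str_le_strs num_primrec prComp)
open Pool.Agent.TH197.J1545 (code_inj num_inj str_pre digits_num str_ne_nil strs_cons strs_append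
  digits_odd digits_even digits_zero num_snoc)
open Pool.Agent.T9h6.BC (st st_primrec st_gn Bd Bd_primrec Bd_mono gn_le vl vl_primrec vl_gn
  rep rep_eq rep_primrec rep_length tlx str_instx digits_primrec parse isProof_sub Num exists_num
  sz vlt_sz Vlt.mono)
open Pool.Agent.T9h6.BD (instD refl db str_instD rfS refl_eq rs str_rfS le_length_rs rs_comp
  app_comp fl mem_fl flat_fl num_digits le_num_append code_single SC sC_iff sl mem_sl of_mem_sl
  PrV prV_primrec)

/-! ### strings of the reflection axioms -/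

/-- the reflection axiom with an arbitrary string -/
def rfJ (W : Fml) (σ : List Bool) (φ : Fml) : Fml :=
  .imp (.ex 3 (.and J (.ex 4 (.and (.neg (.succ 4 4)) (instD 2 σ W))))) φ

theorem reflJ_eq (W : Fml) (Γ : List Fml) (φ : Fml) :
    reflJ W Γ φ = rfJ W (strs (φ :: W :: Γ)) φ := rfl

/-- the beginning of the string -/
def preJ (sJ : List Bool) : List Bool :=
  [false, true, true, true] ++ [false, true, true, true] ++ [true, false, false, false] ++
  varStr 3 ++ [false, true, true, true] ++ [false, true, true, true] ++ [false, true, true, true] ++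
  sJ ++ [false, true, true, true] ++ [false, true, true, true] ++ [true, false, false, false] ++
  varStr 4 ++ [false, true, true, true] ++ [false, true, true, true] ++ [false, true, true, true] ++
  str (.neg (.succ 4 4)) ++ [false, true, true, true]

/-- the middle of the string -/
def midJ : List Bool :=
  [false, false, false, false] ++ [false, false, false, false] ++ [false, false, false, false] ++
  [false, false, false, false] ++ [false, false, false, false] ++ [false, false, false, false] ++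
  [false, false, false, false] ++ [false, false, false, false]

/-- the string of the reflection axiom, in terms of the strings of `φ` and `W` -/
def rsJ (sφ sW σ : List Bool) : List Bool :=
  preJ (str J) ++ (hd ++ σ.flatMap db ++ tlx 2 ++ sW) ++ midJ ++ sφ

theorem str_rfJ (W : Fml) (σ : List Bool) (φ : Fml) :
    str (rfJ W σ φ) = rsJ (str φ) (str W) σ := by
  have e1 := str_instD 2 σ W
  generalize hX : instD 2 σ W = X at e1
  have e2 : rfJ W σ φ = .imp (.ex 3 (.and J (.ex 4 (.and (.neg (.succ 4 4)) X)))) φ := by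
    rw [rfJ, hX]
  rw [e2, rsJ, ← e1]
  generalize J = J'
  simp [Fm.ex, Fm.and, Fm.neg, str, preJ, midJ]

theorem le_length_rsJ (sφ sW σ : List Bool) : sφ.length ≤ (rsJ sφ sW σ).length := by
  unfold rsJ
  simp only [List.length_append]
  omega

theorem rsJ_primrec : Primrec fun p : (List Bool × List Bool) × List Bool =>
    rsJ p.1.1 p.1.2 p.2 := by
  unfold rsJ
  have hdb : Primrec db := Primrec.dom_finite _
  have hf : Primrec fun σ : List Bool => σ.flatMap db :=
    Primrec.list_flatMap Primrec.id (hdb.comp Primrec.snd).to₂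
  have a1 : Primrec fun p : (List Bool × List Bool) × List Bool => p.2.flatMap db :=
    hf.comp Primrec.snd
  have a3 : Primrec fun p : (List Bool × List Bool) × List Bool => p.1.2 :=
    Primrec.snd.comp Primrec.fst
  have a4 : Primrec fun p : (List Bool × List Bool) × List Bool => p.1.1 :=
    Primrec.fst.comp Primrec.fst
  exact Primrec.list_append.comp (Primrec.list_append.comp (Primrec.list_append.comp
    (Primrec.const _) (Primrec.list_append.comp (Primrec.list_append.comp
      (Primrec.list_append.comp (Primrec.const _) a1) (Primrec.const _)) a3))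
      (Primrec.const _)) a4

attribute [irreducible] rsJ

theorem rsJ_comp {β : Type} [Primcodable β] {f g h : β → List Bool}
    (hf : Primrec f) (hg : Primrec g) (hh : Primrec h) :
    Primrec fun x => rsJ (f x) (g x) (h x) :=
  rsJ_primrec.comp (Primrec.pair (Primrec.pair hf hg) hh)

/-! ### selections -/

open Classical in
/-- the string `t` if the string `s` belongs to an element of `S` -/
noncomputable def gsel (S : Fml → Prop) (s t : List Bool) : List Bool :=
  if SC S (num s) then t else []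

theorem flat_sl (S : Fml → Prop) (f : Fml → List Bool) (g : List Bool → List Bool)
    (hfg : ∀ φ, f φ = g (str φ)) (n : ℕ) :
    (sl S n).flatMap f =
      (List.range (n + 1)).flatMap fun a => cond (isF a) (gsel S (st a) (g (st a))) [] := by
  unfold sl
  rw [List.flatMap_assoc]
  refine flat_fl _ (fun s => gsel S s (g s)) (fun φ => ?_) n
  unfold gsel
  by_cases h : S φ
  · rw [if_pos h, if_pos ((sC_iff φ).2 h)]
    simp [hfg]
  · rw [if_neg h, if_neg (fun h' => h ((sC_iff φ).1 h'))]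
    rfl

theorem gsel_primrec {S : Fml → Prop} (hS : PrimrecPred (SC S)) :
    Primrec fun p : List Bool × List Bool => gsel S p.1 p.2 := by
  have h1 : PrimrecPred fun p : List Bool × List Bool => SC S (num p.1) :=
    hS.comp (num_primrec.comp Primrec.fst)
  obtain ⟨hd, hp⟩ := h1
  have h2 : Primrec fun p : List Bool × List Bool => cond (decide (SC S (num p.1))) p.2 [] :=
    Primrec.cond hp Primrec.snd (Primrec.const [])
  refine h2.of_eq fun p => ?_
  unfold gsel
  by_cases h : SC S (num p.1)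
  · rw [if_pos h, decide_eq_true h]
    rfl
  · rw [if_neg h, decide_eq_false h]
    rfl

attribute [irreducible] gsel

theorem gsel_comp {S : Fml → Prop} (hS : PrimrecPred (SC S)) {β : Type} [Primcodable β]
    {f g : β → List Bool} (hf : Primrec f) (hg : Primrec g) :
    Primrec fun x => gsel S (f x) (g x) := (gsel_primrec hS).comp (Primrec.pair hf hg)

/-! ### lists of axioms -/

variable {S F : Fml → Prop}

/-- the list of axioms of `T_k` -/
noncomputable def axlK (S F : Fml → Prop) (W : Fml) (c K n : ℕ) : List Fml :=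
  sl S n ++ (List.range K).flatMap fun j =>
    (sl F n).map fun φ => rfS W (str φ ++ (str W ++ digits c)) j φ

/-- the list of axioms of `T` -/
noncomputable def axlT (S F : Fml → Prop) (W : Fml) (c n : ℕ) : List Fml :=
  sl S n ++ (sl F n).map fun φ => rfJ W (str φ ++ (str W ++ digits c)) φ

/-- the string of the elements of `S` -/
noncomputable def aS (S : Fml → Prop) (n : ℕ) : List Bool :=
  (List.range (n + 1)).flatMap fun a => cond (isF a) (gsel S (st a) (st a)) []

/-- the string of the list -/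
noncomputable def alK (S F : Fml → Prop) (sW : List Bool) (c K n : ℕ) : List Bool :=
  aS S n ++
  (List.range K).flatMap fun j => (List.range (n + 1)).flatMap fun a =>
    cond (isF a) (gsel F (st a) (rs (st a) sW (st a ++ (sW ++ digits c)) j)) []

/-- the string of the list -/
noncomputable def alT (S F : Fml → Prop) (sW : List Bool) (c n : ℕ) : List Bool :=
  aS S n ++
  (List.range (n + 1)).flatMap fun a =>
    cond (isF a) (gsel F (st a) (rsJ (st a) sW (st a ++ (sW ++ digits c)))) []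

theorem strs_sl' (n : ℕ) : strs (sl S n) = aS S n :=
  flat_sl S str (fun s => s) (fun _ => rfl) n

theorem strs_axlK (W : Fml) (c K n : ℕ) : strs (axlK S F W c K n) = alK S F (str W) c K n := by
  unfold axlK alK
  rw [strs_append, strs_sl']
  congr 1
  unfold strs
  rw [List.flatMap_assoc]
  congr 1
  funext j
  rw [List.flatMap_map]
  exact flat_sl F _ (fun s => rs s (str W) (s ++ (str W ++ digits c)) j)
    (fun φ => str_rfS W _ j φ) n

theorem strs_axlT (W : Fml) (c n : ℕ) : strs (axlT S F W c n) = alT S F (str W) c n := by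
  unfold axlT alT
  rw [strs_append, strs_sl']
  congr 1
  unfold strs
  rw [List.flatMap_map]
  exact flat_sl F _ (fun s => rsJ s (str W) (s ++ (str W ++ digits c)))
    (fun φ => str_rfJ W _ φ) n

/-- the code of the list of axioms, followed by the list with the code `c` -/
noncomputable def hhK (S F : Fml → Prop) (sW : List Bool) (c K n : ℕ) : ℕ :=
  num (alK S F sW c K n ++ digits c)

/-- the code of the list of axioms, followed by the list with the code `c` -/
noncomputable def hhT (S F : Fml → Prop) (sW : List Bool) (c n : ℕ) : ℕ :=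
  num (alT S F sW c n ++ digits c)

theorem hhK_code (W : Fml) (Γ : List Fml) (K n : ℕ) :
    hhK S F (str W) (code Γ) K n = code (axlK S F W (code Γ) K n ++ Γ) := by
  unfold hhK
  rw [← strs_axlK]
  unfold code
  rw [digits_num, strs_append]

theorem hhT_code (W : Fml) (Γ : List Fml) (n : ℕ) :
    hhT S F (str W) (code Γ) n = code (axlT S F W (code Γ) n ++ Γ) := by
  unfold hhT
  rw [← strs_axlT]
  unfold code
  rw [digits_num, strs_append]

theorem exists_of_hhK {W : Fml} {c K n : ℕ} {Γ' : List Fml}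
    (h : hhK S F (str W) c K n = code Γ') : ∃ Γ, c = code Γ ∧ Γ' = axlK S F W c K n ++ Γ := by
  unfold hhK code at h
  have h1 := num_inj h
  rw [← strs_axlK] at h1
  obtain ⟨Γ, h2, h3⟩ := parse h1
  refine ⟨Γ, ?_, h2⟩
  unfold code
  rw [← h3, num_digits]

theorem exists_of_hhT {W : Fml} {c n : ℕ} {Γ' : List Fml}
    (h : hhT S F (str W) c n = code Γ') : ∃ Γ, c = code Γ ∧ Γ' = axlT S F W c n ++ Γ := by
  unfold hhT code at h
  have h1 := num_inj h
  rw [← strs_axlT] at h1
  obtain ⟨Γ, h2, h3⟩ := parse h1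
  refine ⟨Γ, ?_, h2⟩
  unfold code
  rw [← h3, num_digits]

theorem axK_of_mem {W : Fml} {Γ : List Fml} {K n : ℕ} {ψ : Fml}
    (h : ψ ∈ axlK S F W (code Γ) K n ++ Γ) : AxK S F W Γ K ψ := by
  rcases List.mem_append.1 h with h | h
  · unfold axlK at h
    rcases List.mem_append.1 h with h | h
    · exact Or.inr (Or.inl (of_mem_sl h))
    · rw [List.mem_flatMap] at h
      obtain ⟨j, hj, h⟩ := h
      obtain ⟨φ, hφ, rfl⟩ := List.mem_map.1 h
      refine Or.inr (Or.inr ⟨j, List.mem_range.1 hj, φ, of_mem_sl hφ, ?_⟩)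
      rw [refl_eq, strs_cons, strs_cons]
      unfold code
      rw [digits_num]
  · exact Or.inl h

theorem axT_of_mem {W : Fml} {Γ : List Fml} {n : ℕ} {ψ : Fml}
    (h : ψ ∈ axlT S F W (code Γ) n ++ Γ) : AxT S F W Γ ψ := by
  rcases List.mem_append.1 h with h | h
  · unfold axlT at h
    rcases List.mem_append.1 h with h | h
    · exact Or.inr (Or.inl (of_mem_sl h))
    · obtain ⟨φ, hφ, rfl⟩ := List.mem_map.1 h
      refine Or.inr (Or.inr ⟨φ, of_mem_sl hφ, ?_⟩)
      rw [reflJ_eq, strs_cons, strs_cons]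
      unfold code
      rw [digits_num]
  · exact Or.inl h

theorem mem_of_axK {W : Fml} {Γ : List Fml} {K y : ℕ} {ψ : Fml}
    (hψ : (str ψ).length ≤ y) (h : AxK S F W Γ K ψ) : ψ ∈ axlK S F W (code Γ) K (Bd y) ++ Γ := by
  rcases h with h | h | ⟨j, hj, φ, hφ, rfl⟩
  · exact List.mem_append_right _ h
  · refine List.mem_append_left _ (List.mem_append_left _ (mem_sl ?_ h))
    exact (gn_le ψ).trans (Bd_mono hψ)
  · refine List.mem_append_left _ (List.mem_append_right _ ?_)
    rw [List.mem_flatMap]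
    refine ⟨j, List.mem_range.2 hj, ?_⟩
    rw [List.mem_map]
    refine ⟨φ, mem_sl ((gn_le φ).trans (Bd_mono ?_)) hφ, ?_⟩
    · rw [refl_eq, str_rfS] at hψ
      have := le_length_rs (str φ) (str W) (strs (φ :: W :: Γ)) j
      omega
    · rw [refl_eq, strs_cons, strs_cons]
      unfold code
      rw [digits_num]

theorem mem_of_axT {W : Fml} {Γ : List Fml} {y : ℕ} {ψ : Fml}
    (hψ : (str ψ).length ≤ y) (h : AxT S F W Γ ψ) : ψ ∈ axlT S F W (code Γ) (Bd y) ++ Γ := by
  rcases h with h | h | ⟨φ, hφ, rfl⟩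
  · exact List.mem_append_right _ h
  · refine List.mem_append_left _ (List.mem_append_left _ (mem_sl ?_ h))
    exact (gn_le ψ).trans (Bd_mono hψ)
  · refine List.mem_append_left _ (List.mem_append_right _ ?_)
    rw [List.mem_map]
    refine ⟨φ, mem_sl ((gn_le φ).trans (Bd_mono ?_)) hφ, ?_⟩
    · rw [reflJ_eq, str_rfJ] at hψ
      have := le_length_rsJ (str φ) (str W) (strs (φ :: W :: Γ))
      omega
    · rw [reflJ_eq, strs_cons, strs_cons]
      unfold code
      rw [digits_num]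

theorem prK_iff {W : Fml} {Γ : List Fml} {k x : ℕ} {φ : Fml} :
    PrK S F W Γ k x φ ↔ PrV (hhK S F (str W) (code Γ) k (Bd x), k, x, num (str φ)) := by
  constructor
  · rintro ⟨Δ, π, h1, h2, h3, h4⟩
    refine ⟨_, φ, π, hhK_code W Γ k (Bd x), (code_single φ).symm, ?_, h3, h4⟩
    exact isProof_sub (fun ψ hψ hΔ => mem_of_axK ((str_le_strs hψ).trans h4) (h1 ψ hΔ)) h2
  · rintro ⟨Γ', φ', π, h1, h2, h3, h4, h5⟩
    simp only at h1 h2 h4 h5
    rw [hhK_code] at h1
    have h6 := code_inj h1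
    rw [← code_single] at h2
    have h7 : φ = φ' := by simpa using code_inj h2
    subst h7
    subst h6
    exact ⟨_, π, fun ψ hψ => axK_of_mem hψ, h3, h4, h5⟩

theorem pRel_iff (c k x : ℕ) : PRel S F c k x ↔
    ∃ a ∈ List.range (Bd c + 1), ∃ b ∈ List.range (Bd c + 1), ∃ e ∈ List.range (c + 1),
      isF a = true ∧ isF b = true ∧ c = num (st a ++ (st b ++ digits e)) ∧
        PrV (hhK S F (st b) e k (Bd x), k, x, num (st a)) := by
  simp only [List.mem_range]
  constructor
  · rintro ⟨φ, W, Γ, h1, h2⟩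
    have h3 : strs (φ :: W :: Γ) = str φ ++ (str W ++ strs Γ) := rfl
    have hl : (strs (φ :: W :: Γ)).length ≤ c := by
      rw [h1]
      exact length_le_num _
    have hl1 : (str φ).length ≤ c := (str_le_strs (List.mem_cons_self ..)).trans hl
    have hl2 : (str W).length ≤ c :=
      (str_le_strs (List.mem_cons_of_mem _ (List.mem_cons_self ..))).trans hl
    refine ⟨gn φ, ?_, gn W, ?_, code Γ, ?_, (isF_iff _).2 ⟨φ, rfl⟩, (isF_iff _).2 ⟨W, rfl⟩, ?_, ?_⟩
    · have := (gn_le φ).trans (Bd_mono hl1)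
      omega
    · have := (gn_le W).trans (Bd_mono hl2)
      omega
    · have : code Γ ≤ c := by
        rw [h1]
        unfold code
        rw [h3, ← List.append_assoc]
        exact le_num_append _ _
      omega
    · rw [st_gn, st_gn, h1]
      unfold code
      rw [digits_num, h3]
    · rw [st_gn, st_gn]
      exact prK_iff.1 h2
  · rintro ⟨a, -, b, -, e, -, ha, hb, hc, h⟩
    obtain ⟨φ, rfl⟩ := (isF_iff a).1 ha
    obtain ⟨W, rfl⟩ := (isF_iff b).1 hb
    rw [st_gn, st_gn] at hc h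
    obtain ⟨Γ', φ', π, h1, h2⟩ := id h
    simp only at h1
    obtain ⟨Γ, rfl, -⟩ := exists_of_hhK h1
    refine ⟨φ, W, Γ, ?_, prK_iff.2 h⟩
    rw [hc]
    unfold code
    rw [digits_num]
    rfl

theorem tRel_iff (V : Fml) (c y d : ℕ) : TRel S F V c y d ↔
    PrV (hhT S F (str V) c (Bd y), y, y, d) := by
  constructor
  · rintro ⟨Γ, φ, rfl, rfl, Δ, h1, π, h2, h3⟩
    refine ⟨_, φ, π, hhT_code V Γ (Bd y), rfl, ?_, ?_, h3⟩
    · exact isProof_sub (fun ψ hψ hΔ => mem_of_axT ((str_le_strs hψ).trans h3) (h1 ψ hΔ)) h2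
    · intro ψ hψ
      have h4 : sz ψ ≤ y := (str_le_strs hψ).trans h3
      exact Vlt.mono h4 (vlt_sz ψ)
  · rintro ⟨Γ', φ, π, h1, h2, h3, h4, h5⟩
    simp only at h1 h2 h4 h5
    obtain ⟨Γ, rfl, rfl⟩ := exists_of_hhT h1
    exact ⟨Γ, φ, rfl, h2, _, fun ψ hψ => axT_of_mem hψ, π, h3, h5⟩

/-! ### primitive recursion -/

theorem aS_primrec (hS : PrimrecPred (SC S)) : Primrec (aS S) := by
  unfold aS
  refine Primrec.list_flatMap (Primrec.list_range.comp Primrec.succ) ?_
  have f1 : Primrec fun r : ℕ × ℕ => st r.2 := st_primrec.comp Primrec.snd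
  have f6 : Primrec fun r : ℕ × ℕ => isF r.2 := isF_primrec.comp Primrec.snd
  exact (Primrec.cond f6 (gsel_comp hS f1 f1) (Primrec.const [])).to₂

theorem alK_primrec (hS : PrimrecPred (SC S)) (hF : PrimrecPred (SC F)) :
    Primrec fun p : (List Bool × ℕ) × (ℕ × ℕ) => alK S F p.1.1 p.1.2 p.2.1 p.2.2 := by
  unfold alK
  have e1 : Primrec fun p : (List Bool × ℕ) × (ℕ × ℕ) => List.range (p.2.2 + 1) :=
    Primrec.list_range.comp (Primrec.succ.comp (Primrec.snd.comp Primrec.snd))
  have e2 : Primrec fun p : (List Bool × ℕ) × (ℕ × ℕ) => List.range p.2.1 :=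
    Primrec.list_range.comp (Primrec.fst.comp Primrec.snd)
  refine Primrec.list_append.comp ((aS_primrec hS).comp (Primrec.snd.comp Primrec.snd)) ?_
  refine Primrec.list_flatMap e2 ?_
  have f1 : Primrec fun r : (((List Bool × ℕ) × (ℕ × ℕ)) × ℕ) × ℕ => st r.2 :=
    st_primrec.comp Primrec.snd
  have f2 : Primrec fun r : (((List Bool × ℕ) × (ℕ × ℕ)) × ℕ) × ℕ => r.1.1.1.1 :=
    Primrec.fst.comp (Primrec.fst.comp (Primrec.fst.comp Primrec.fst))
  have f3 : Primrec fun r : (((List Bool × ℕ) × (ℕ × ℕ)) × ℕ) × ℕ => digits r.1.1.1.2 :=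
    digits_primrec.comp (Primrec.snd.comp (Primrec.fst.comp (Primrec.fst.comp Primrec.fst)))
  have f4 : Primrec fun r : (((List Bool × ℕ) × (ℕ × ℕ)) × ℕ) × ℕ => r.1.2 :=
    Primrec.snd.comp Primrec.fst
  have f5 : Primrec fun r : (((List Bool × ℕ) × (ℕ × ℕ)) × ℕ) × ℕ =>
      rs (st r.2) r.1.1.1.1 (st r.2 ++ (r.1.1.1.1 ++ digits r.1.1.1.2)) r.1.2 :=
    rs_comp f1 f2 (app_comp f1 (app_comp f2 f3)) f4
  have f6 : Primrec fun r : (((List Bool × ℕ) × (ℕ × ℕ)) × ℕ) × ℕ => isF r.2 :=
    isF_primrec.comp Primrec.snd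
  have f7 : Primrec fun r : (((List Bool × ℕ) × (ℕ × ℕ)) × ℕ) × ℕ =>
      cond (isF r.2) (gsel F (st r.2)
        (rs (st r.2) r.1.1.1.1 (st r.2 ++ (r.1.1.1.1 ++ digits r.1.1.1.2)) r.1.2)) [] :=
    Primrec.cond f6 (gsel_comp hF f1 f5) (Primrec.const [])
  have f8 : Primrec fun q : ((List Bool × ℕ) × (ℕ × ℕ)) × ℕ => List.range (q.1.2.2 + 1) :=
    e1.comp Primrec.fst
  exact (Primrec.list_flatMap f8 f7.to₂).to₂

theorem alT_primrec (hS : PrimrecPred (SC S)) (hF : PrimrecPred (SC F)) :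
    Primrec fun p : (List Bool × ℕ) × ℕ => alT S F p.1.1 p.1.2 p.2 := by
  unfold alT
  have e1 : Primrec fun p : (List Bool × ℕ) × ℕ => List.range (p.2 + 1) :=
    Primrec.list_range.comp (Primrec.succ.comp Primrec.snd)
  refine Primrec.list_append.comp ((aS_primrec hS).comp Primrec.snd) ?_
  refine Primrec.list_flatMap e1 ?_
  have f1 : Primrec fun r : ((List Bool × ℕ) × ℕ) × ℕ => st r.2 :=
    st_primrec.comp Primrec.snd
  have f2 : Primrec fun r : ((List Bool × ℕ) × ℕ) × ℕ => r.1.1.1 :=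
    Primrec.fst.comp (Primrec.fst.comp Primrec.fst)
  have f3 : Primrec fun r : ((List Bool × ℕ) × ℕ) × ℕ => digits r.1.1.2 :=
    digits_primrec.comp (Primrec.snd.comp (Primrec.fst.comp Primrec.fst))
  have f5 : Primrec fun r : ((List Bool × ℕ) × ℕ) × ℕ =>
      rsJ (st r.2) r.1.1.1 (st r.2 ++ (r.1.1.1 ++ digits r.1.1.2)) :=
    rsJ_comp f1 f2 (app_comp f1 (app_comp f2 f3))
  have f6 : Primrec fun r : ((List Bool × ℕ) × ℕ) × ℕ => isF r.2 :=
    isF_primrec.comp Primrec.snd
  exact (Primrec.cond f6 (gsel_comp hF f1 f5) (Primrec.const [])).to₂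

theorem hhK_primrec (hS : PrimrecPred (SC S)) (hF : PrimrecPred (SC F)) :
    Primrec fun p : (List Bool × ℕ) × (ℕ × ℕ) => hhK S F p.1.1 p.1.2 p.2.1 p.2.2 := by
  unfold hhK
  exact num_primrec.comp (Primrec.list_append.comp (alK_primrec hS hF)
    (digits_primrec.comp (Primrec.snd.comp Primrec.fst)))

theorem hhT_primrec (hS : PrimrecPred (SC S)) (hF : PrimrecPred (SC F)) :
    Primrec fun p : (List Bool × ℕ) × ℕ => hhT S F p.1.1 p.1.2 p.2 := by
  unfold hhT
  exact num_primrec.comp (Primrec.list_append.comp (alT_primrec hS hF)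
    (digits_primrec.comp (Primrec.snd.comp Primrec.fst)))

attribute [irreducible] hhK hhT

theorem tRel_primrec (hS : PrimrecPred (SC S)) (hF : PrimrecPred (SC F)) (V : Fml) :
    PrimrecPred fun x : ℕ × ℕ × ℕ => TRel S F V x.1 x.2.1 x.2.2 := by
  have e1 : Primrec fun x : ℕ × ℕ × ℕ => x.2.1 := Primrec.fst.comp Primrec.snd
  have h1 : Primrec fun x : ℕ × ℕ × ℕ =>
      ((hhT S F (str V) x.1 (Bd x.2.1), x.2.1, x.2.1, x.2.2) : ℕ × ℕ × ℕ × ℕ) := by
    refine Primrec.pair ?_ (Primrec.pair e1 (Primrec.pair e1 (Primrec.snd.comp Primrec.snd)))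
    exact (hhT_primrec hS hF).comp (Primrec.pair (Primrec.pair (Primrec.const _) Primrec.fst)
      (Bd_primrec.comp e1))
  exact (prV_primrec.comp h1).of_eq fun x => (tRel_iff V _ _ _).symm

theorem pRel_primrec (hS : PrimrecPred (SC S)) (hF : PrimrecPred (SC F)) :
    PrimrecPred fun x : ℕ × ℕ × ℕ => PRel S F x.1 x.2.1 x.2.2 := by
  -- `q = (a, b, e, x)`
  have g1 : Primrec fun q : ℕ × (ℕ × (ℕ × (ℕ × ℕ × ℕ))) => st q.1 := st_primrec.comp Primrec.fst
  have g2 : Primrec fun q : ℕ × (ℕ × (ℕ × (ℕ × ℕ × ℕ))) => st q.2.1 :=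
    st_primrec.comp (Primrec.fst.comp Primrec.snd)
  have g3 : Primrec fun q : ℕ × (ℕ × (ℕ × (ℕ × ℕ × ℕ))) => q.2.2.1 :=
    Primrec.fst.comp (Primrec.snd.comp Primrec.snd)
  have gx : Primrec fun q : ℕ × (ℕ × (ℕ × (ℕ × ℕ × ℕ))) => q.2.2.2 :=
    Primrec.snd.comp (Primrec.snd.comp Primrec.snd)
  have gk : Primrec fun q : ℕ × (ℕ × (ℕ × (ℕ × ℕ × ℕ))) => q.2.2.2.2.1 :=
    Primrec.fst.comp (Primrec.snd.comp gx)
  have gy : Primrec fun q : ℕ × (ℕ × (ℕ × (ℕ × ℕ × ℕ))) => q.2.2.2.2.2 :=
    Primrec.snd.comp (Primrec.snd.comp gx)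
  have k1 : PrimrecPred fun q : ℕ × (ℕ × (ℕ × (ℕ × ℕ × ℕ))) => isF q.1 = true :=
    Primrec.eq.comp (isF_primrec.comp Primrec.fst) (Primrec.const true)
  have k2 : PrimrecPred fun q : ℕ × (ℕ × (ℕ × (ℕ × ℕ × ℕ))) => isF q.2.1 = true :=
    Primrec.eq.comp (isF_primrec.comp (Primrec.fst.comp Primrec.snd)) (Primrec.const true)
  have k3 : PrimrecPred fun q : ℕ × (ℕ × (ℕ × (ℕ × ℕ × ℕ))) =>
      q.2.2.2.1 = num (st q.1 ++ (st q.2.1 ++ digits q.2.2.1)) :=
    Primrec.eq.comp (Primrec.fst.comp gx) (num_primrec.comp (Primrec.list_append.comp g1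
      (Primrec.list_append.comp g2 (digits_primrec.comp g3))))
  have k4 : PrimrecPred fun q : ℕ × (ℕ × (ℕ × (ℕ × ℕ × ℕ))) =>
      PrV (hhK S F (st q.2.1) q.2.2.1 q.2.2.2.2.1 (Bd q.2.2.2.2.2), q.2.2.2.2.1, q.2.2.2.2.2,
        num (st q.1)) := by
    refine prV_primrec.comp (Primrec.pair ?_ (Primrec.pair gk (Primrec.pair gy
      (num_primrec.comp g1))))
    exact (hhK_primrec hS hF).comp (Primrec.pair (Primrec.pair g2 g3)
      (Primrec.pair gk (Bd_primrec.comp gy)))
  have k5 : PrimrecPred fun q : ℕ × (ℕ × (ℕ × (ℕ × ℕ × ℕ))) => isF q.1 = true ∧ isF q.2.1 = true ∧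
      q.2.2.2.1 = num (st q.1 ++ (st q.2.1 ++ digits q.2.2.1)) ∧
      PrV (hhK S F (st q.2.1) q.2.2.1 q.2.2.2.2.1 (Bd q.2.2.2.2.2), q.2.2.2.2.1, q.2.2.2.2.2,
        num (st q.1)) := k1.and (k2.and (k3.and k4))
  -- the quantifier over `e`
  have k6 : PrimrecRel fun (e : ℕ) (r : ℕ × ℕ × (ℕ × ℕ × ℕ)) => isF r.1 = true ∧
      isF r.2.1 = true ∧ r.2.2.1 = num (st r.1 ++ (st r.2.1 ++ digits e)) ∧
      PrV (hhK S F (st r.2.1) e r.2.2.2.1 (Bd r.2.2.2.2), r.2.2.2.1, r.2.2.2.2, num (st r.1)) :=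
    k5.comp (f := fun p : ℕ × (ℕ × ℕ × (ℕ × ℕ × ℕ)) => (p.2.1, p.2.2.1, p.1, p.2.2.2))
      (Primrec.pair (Primrec.fst.comp Primrec.snd) (Primrec.pair (Primrec.fst.comp
        (Primrec.snd.comp Primrec.snd)) (Primrec.pair Primrec.fst (Primrec.snd.comp
          (Primrec.snd.comp Primrec.snd)))))
  have k7 : PrimrecPred fun r : ℕ × ℕ × (ℕ × ℕ × ℕ) => ∃ e ∈ List.range (r.2.2.1 + 1),
      isF r.1 = true ∧ isF r.2.1 = true ∧ r.2.2.1 = num (st r.1 ++ (st r.2.1 ++ digits e)) ∧
      PrV (hhK S F (st r.2.1) e r.2.2.2.1 (Bd r.2.2.2.2), r.2.2.2.1, r.2.2.2.2, num (st r.1)) :=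
    (PrimrecRel.exists_mem_list k6).comp (Primrec.list_range.comp (Primrec.succ.comp
      (Primrec.fst.comp (Primrec.snd.comp Primrec.snd)))) Primrec.id
  -- the quantifier over `b`
  have k8 : PrimrecRel fun (b : ℕ) (r : ℕ × (ℕ × ℕ × ℕ)) => ∃ e ∈ List.range (r.2.1 + 1),
      isF r.1 = true ∧ isF b = true ∧ r.2.1 = num (st r.1 ++ (st b ++ digits e)) ∧
      PrV (hhK S F (st b) e r.2.2.1 (Bd r.2.2.2), r.2.2.1, r.2.2.2, num (st r.1)) :=
    k7.comp (f := fun p : ℕ × (ℕ × (ℕ × ℕ × ℕ)) => (p.2.1, p.1, p.2.2))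
      (Primrec.pair (Primrec.fst.comp Primrec.snd) (Primrec.pair Primrec.fst
        (Primrec.snd.comp Primrec.snd)))
  have k9 : PrimrecPred fun r : ℕ × (ℕ × ℕ × ℕ) => ∃ b ∈ List.range (Bd r.2.1 + 1),
      ∃ e ∈ List.range (r.2.1 + 1),
      isF r.1 = true ∧ isF b = true ∧ r.2.1 = num (st r.1 ++ (st b ++ digits e)) ∧
      PrV (hhK S F (st b) e r.2.2.1 (Bd r.2.2.2), r.2.2.1, r.2.2.2, num (st r.1)) :=
    (PrimrecRel.exists_mem_list k8).comp (Primrec.list_range.comp (Primrec.succ.comp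
      (Bd_primrec.comp (Primrec.fst.comp Primrec.snd)))) Primrec.id
  have k10 : PrimrecPred fun x : ℕ × ℕ × ℕ => ∃ a ∈ List.range (Bd x.1 + 1),
      ∃ b ∈ List.range (Bd x.1 + 1), ∃ e ∈ List.range (x.1 + 1),
      isF a = true ∧ isF b = true ∧ x.1 = num (st a ++ (st b ++ digits e)) ∧
      PrV (hhK S F (st b) e x.2.1 (Bd x.2.2), x.2.1, x.2.2, num (st a)) :=
    (PrimrecRel.exists_mem_list (R := fun (a : ℕ) (x : ℕ × ℕ × ℕ) =>
      ∃ b ∈ List.range (Bd x.1 + 1), ∃ e ∈ List.range (x.1 + 1),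
      isF a = true ∧ isF b = true ∧ x.1 = num (st a ++ (st b ++ digits e)) ∧
      PrV (hhK S F (st b) e x.2.1 (Bd x.2.2), x.2.1, x.2.2, num (st a))) k9).comp
      (Primrec.list_range.comp (Primrec.succ.comp (Bd_primrec.comp Primrec.fst))) Primrec.id
  exact k10.of_eq fun x => (pRel_iff _ _ _).symm

/-- There is a numeration of the first relation. -/
theorem exists_V (hS : PrimrecPred (SC S)) (hF : PrimrecPred (SC F)) : ∃ V, Num (PRel S F) V := by
  obtain ⟨hd, hc⟩ := pRel_primrec hS hF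
  exact exists_num ⟨hd, hc.to_comp⟩

/-- There is a numeration of the second relation. -/
theorem exists_P (hS : PrimrecPred (SC S)) (hF : PrimrecPred (SC F)) (V : Fml) :
    ∃ P, Num (TRel S F V) P := by
  obtain ⟨hd, hc⟩ := tRel_primrec hS hF V
  exact exists_num ⟨hd, hc.to_comp⟩

end Pool.Agent.T9h6.BE
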