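import Pool.Agent.T9h6.BE.Defs
import Pool.Agent.T9h6.BD.Cst
import Pool.Agent.T9h6.BC.Cons

/-!
# The reflection axioms in the pseudo-models
-/

set_option autoImplicit false

namespace Pool.Agent.T9h6.BE

open Pool.Agent.TH672 (Fm Str upd varStr num digits LogK ReplK Sw Pv upd_same upd_ne upd_upd
  upd_comm)
open Pool.Agent.TH636.BC
open Pool.Agent.TH838.J1549 (sat_cong sat_inst sat_inst3 free_inst Q exists_Q)
open Pool.Agent.TH554.J1548 (str_le_strs)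
open Pool.Agent.TH197.J1545 (DM D Dsucc Dadd Dmul sat_proves sat_robinson code_inj sat_upd)
open Pool.Agent.T9h21.BC (NoCol noCol_of_arith tru_iff_sat tr1_of_sat exists_rel tru_ex tru_neg
  pr_inl)
open Pool.Agent.T9h6.BC (Num exists_QD arith_inst ok_zero rep_length isProof_sub Vlt.mono vlt_sz sz)
open Pool.Agent.T9h6.BD (instD refl RelTrue sat_instD arith_instD tr1_relTrue)

theorem tru_and {m : ℕ} {φ ψ : Fml} {s : St} :
    Tru m (.and φ ψ) s ↔ Tru m φ s ∧ Tru m ψ s := by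
  unfold Fm.and
  rw [tru_neg]
  show ¬ (Tru m φ s → Tru m ψ.neg s) ↔ _
  rw [tru_neg]
  tauto

/-- the hypothesis of the reflection axioms, with the free variable `3` -/
def HyI (W : Fml) (σ : List Bool) : Fml := .ex 4 (.and (.neg (.succ 4 4)) (instD 2 σ W))

theorem arith_HyI {W : Fml} (h : Arith W) (σ : List Bool) : Arith (HyI W σ) :=
  ⟨⟨⟨⟨⟨trivial, trivial⟩, ⟨arith_instD h, trivial⟩⟩, trivial⟩, trivial⟩, trivial⟩

variable {S F : Fml → Prop}

theorem sat_HyI {V : Fml} (hV : Num (PRel S F) V) {σ : List Bool} {k : ℕ}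
    {v : ℕ → D.M} (hk : v 3 = Sum.inl k) (h : Fm.Sat D (HyI V σ) v) :
    ∃ x, PRel S F (num σ) k x := by
  obtain ⟨q, hq⟩ := exists_QD
  have hfr := hV.free
  have f0 : ¬ V.Free 0 := fun h => by have := hfr 0 h; omega
  have f1 : ¬ V.Free 1 := fun h => by have := hfr 1 h; omega
  have hfn : ∀ x, V.neg.Free x → x = 2 ∨ x = 3 ∨ x = 4 := fun x hx => by
    simp only [Fm.neg, Fm.Free, or_false] at hx
    exact hfr x hx
  unfold HyI at h
  rw [Fm.sat_ex] at h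
  obtain ⟨a, ha⟩ := h
  rw [Fm.sat_and, Fm.sat_neg, Fm.sat_succ, upd_same] at ha
  obtain ⟨ha1, ha2⟩ := ha
  rcases a with n | p
  swap
  · exact absurd rfl ha1
  rw [sat_instD (by omega) f0 f1] at ha2
  refine ⟨n, ?_⟩
  by_contra hcon
  obtain ⟨m, hm⟩ := hV.neg (num σ) k n hcon
  have h1 : ∀ ψ, ψ = inst 2 (num σ) (inst 3 k (inst 4 n V.neg)) → Fm.Sat D ψ v := by
    rintro ψ rfl
    exact sat_proves sat_robinson hm v
  have h2 := h1 _ rfl
  rw [sat_inst3 q hfn, Fm.sat_neg] at h2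
  apply h2
  rw [hq (num σ), hq k, hq n]
  refine (sat_cong fun y hy => ?_).1 ha2
  have := hfr y hy
  unfold upd
  rcases this with rfl | rfl | rfl
  · simp
  · simp [hk]
  · simp

theorem sat_Hy {V : Fml} (hV : Num (PRel S F) V) {σ : List Bool} {k : ℕ}
    {v : ℕ → D.M} (h : Fm.Sat D (Pool.Agent.T9h6.BD.Hy V σ k) v) : ∃ x, PRel S F (num σ) k x := by
  obtain ⟨q, hq⟩ := exists_QD
  have hfr := hV.free
  have f0 : ¬ V.Free 0 := fun h => by have := hfr 0 h; omega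
  have f1 : ¬ V.Free 1 := fun h => by have := hfr 1 h; omega
  have hfn : ∀ x, V.neg.Free x → x = 2 ∨ x = 3 ∨ x = 4 := fun x hx => by
    simp only [Fm.neg, Fm.Free, or_false] at hx
    exact hfr x hx
  unfold Pool.Agent.T9h6.BD.Hy at h
  rw [Fm.sat_ex] at h
  obtain ⟨a, ha⟩ := h
  rw [Fm.sat_and, Fm.sat_neg, Fm.sat_succ, upd_same] at ha
  obtain ⟨ha1, ha2⟩ := ha
  rcases a with n | p
  swap
  · exact absurd rfl ha1
  rw [sat_instD (by omega) (fun h => (free_inst h).1 rfl) (fun h => f1 (free_inst h).2.2),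
    sat_inst q (by omega) f0 f1] at ha2
  refine ⟨n, ?_⟩
  by_contra hcon
  obtain ⟨m, hm⟩ := hV.neg (num σ) k n hcon
  have h1 : ∀ ψ, ψ = inst 2 (num σ) (inst 3 k (inst 4 n V.neg)) → Fm.Sat D ψ v := by
    rintro ψ rfl
    exact sat_proves sat_robinson hm v
  have h2 := h1 _ rfl
  rw [sat_inst3 q hfn, Fm.sat_neg] at h2
  apply h2
  rw [hq k] at ha2
  rw [hq (num σ), hq k, hq n]
  refine (sat_cong fun y hy => ?_).1 ha2
  have := hfr y hy
  unfold upd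
  rcases this with rfl | rfl | rfl <;> simp

theorem tru_reflJ {V : Fml} (hV : Num (PRel S F) V) {Γ : List Fml} {m : ℕ} {φ : Fml}
    (hvl : Vlt m (reflJ V Γ φ))
    (h : ∀ k < m, ∀ x, PRel S F (code (φ :: V :: Γ)) k x → Tr1 m φ) : Tr1 m (reflJ V Γ φ) := by
  have h0 : ∀ X : Fml, X = HyI V (strs (φ :: V :: Γ)) → Vlt m (Fm.ex 3 (.and J X)) → Arith X →
      Tr1 m ((Fm.ex 3 (.and J X)).imp φ) := by
    rintro X hXe hvX haX s hs hE
    have h3m : 3 < m := hvX.1.1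
    have hvX' : Vlt m X := hvX.1.2.1.1.2.1
    have hJm : Vlt m J := hvX.1.2.1.1.1
    have h33 : 33 < m := hJm.1.2.1.1.1
    have h35 : 35 < m := hJm.1.2.1.1.2.1.1.1
    have h37 : 37 < m := hJm.1.2.1.1.2.1.1.2.1.1.1
    rw [tru_ex] at hE
    obtain ⟨t, ht, hts, hJX⟩ := hE
    rw [tru_and] at hJX
    obtain ⟨hJ, hX⟩ := hJX
    unfold J at hJ
    rw [tru_and, tru_ex] at hJ
    obtain ⟨hn, t1, ht1, ha1, hJ⟩ := hJ
    rw [tru_ex] at hJ
    obtain ⟨t2, ht2, ha2, hJ⟩ := hJ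
    rw [tru_ex] at hJ
    obtain ⟨t3, ht3, ha3, hJ⟩ := hJ
    rw [tru_and] at hJ
    obtain ⟨⟨δ, e1, e2⟩, hl⟩ := hJ
    have e3 : t3.v 3 = t.v 3 := by
      rw [ha3.1 3 h3m (by omega), ha2.1 3 h3m (by omega), ha1.1 3 h3m (by omega)]
    obtain ⟨k, hk⟩ : ∃ k, t.v 3 = .inl k := by
      have hn' : (t.v 3).isLeft = true := hn
      exact Sum.isLeft_iff.1 hn'
    have hkδ : k ≤ δ := by
      by_contra hlt
      exact hl ⟨δ, k, e1, by rw [e3, hk], by omega⟩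
    have hkm : k < m := by
      have := ht3.le 33 h33 35 h35
      omega
    obtain ⟨v, hv⟩ := exists_rel ht
    have h1 := (tru_iff_sat (noCol_of_arith haX) hvX' ht hv).1 hX
    have hv3 : v 3 = Sum.inl k := by
      have := hv.val 3 h3m
      rw [hk] at this
      exact pr_inl.1 this.symm
    rw [hXe] at h1
    obtain ⟨x, hx⟩ := sat_HyI hV hv3 h1
    exact h k hkm x hx s hs
  exact h0 _ rfl hvl.1 (arith_HyI hV.arith _)

/-- the reflection axioms of the theories `T_k` -/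
theorem tru_refl {V : Fml} (hV : Num (PRel S F) V) {Γ : List Fml} {k m : ℕ}
    {φ : Fml} (hvl : Vlt m (refl V Γ k φ))
    (h : ∀ x, PRel S F (code (φ :: V :: Γ)) k x → Tr1 m φ) : Tr1 m (refl V Γ k φ) := by
  have h0 : ∀ X : Fml, X = Pool.Agent.T9h6.BD.Hy V (strs (φ :: V :: Γ)) k → Vlt m X → Arith X →
      Tr1 m (X.imp φ) := by
    rintro X hXe hvX haX s hs hX
    obtain ⟨v, hv⟩ := exists_rel hs
    have h1 := (tru_iff_sat (noCol_of_arith haX) hvX hs hv).1 hX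
    rw [hXe] at h1
    obtain ⟨x, hx⟩ := sat_Hy hV h1
    exact h x hx s hs
  exact h0 _ rfl hvl.1 (Pool.Agent.T9h6.BD.arith_Hy hV.arith _ _)

/-- The axioms of `T_k` are true in the pseudo-model of dimension `m ≥ k`. -/
theorem tr1_axK (hSd : SoundS) (hS : ∀ ψ, S ψ → RelTrue ψ) {V : Fml}
    (hV : Num (PRel S F) V) {Γ : List Fml} {m : ℕ} (hax : ∀ φ ∈ Γ, Vlt m φ → Tr1 m φ) :
    ∀ k ≤ m, ∀ ψ, AxK S F V Γ (k + 1) ψ → Vlt m ψ → Tr1 m ψ := by
  intro k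
  induction k using Nat.strong_induction_on with
  | _ k ih =>
    intro hk ψ hψ hv
    rcases hψ with h | h | ⟨j, hj, φ, hφ, rfl⟩
    · exact hax ψ h hv
    · exact tr1_relTrue (hS ψ h) hv
    · refine tru_refl hV hv fun x hx => ?_
      obtain ⟨φ', W, Γ', e, Δ, π, h1, h2, h3, -⟩ := hx
      have e' := code_inj e
      simp only [List.cons.injEq] at e'
      obtain ⟨rfl, rfl, rfl⟩ := e'
      refine hSd m Δ (φ :: π) h2 (fun ψ hψ => Vlt.mono (by omega) (h3 ψ hψ))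
        (fun ψ hψ hvψ => ?_) φ (List.mem_cons_self ..)
      rcases h1 ψ hψ with h4 | h4 | ⟨i, hi, φ', hφ', rfl⟩
      · exact hax ψ h4 hvψ
      · exact tr1_relTrue (hS ψ h4) hvψ
      · exact ih i (by omega) (by omega) _ (Or.inr (Or.inr ⟨i, by omega, φ', hφ', rfl⟩)) hvψ

/-- The axioms of `T` are true in the pseudo-model of dimension `m`. -/
theorem tr1_axT (hSd : SoundS) (hS : ∀ ψ, S ψ → RelTrue ψ) {V : Fml}
    (hV : Num (PRel S F) V) {Γ : List Fml} {m : ℕ} (hax : ∀ φ ∈ Γ, Vlt m φ → Tr1 m φ)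
    {ψ : Fml} (hψ : AxT S F V Γ ψ) (hv : Vlt m ψ) : Tr1 m ψ := by
  rcases hψ with h | h | ⟨φ, hφ, rfl⟩
  · exact hax ψ h hv
  · exact tr1_relTrue (hS ψ h) hv
  · refine tru_reflJ hV hv fun k hk x hx => ?_
    obtain ⟨φ', W, Γ', e, Δ, π, h1, h2, h3, -⟩ := hx
    have e' := code_inj e
    simp only [List.cons.injEq] at e'
    obtain ⟨rfl, rfl, rfl⟩ := e'
    refine hSd m Δ (φ :: π) h2 (fun ψ hψ => Vlt.mono (by omega) (h3 ψ hψ))
      (fun ψ hψ hvψ => ?_) φ (List.mem_cons_self ..)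
    rcases h1 ψ hψ with h4 | h4 | ⟨i, hi, φ', hφ', rfl⟩
    · exact hax ψ h4 hvψ
    · exact tr1_relTrue (hS ψ h4) hvψ
    · exact tr1_axK hSd hS hV hax i (by omega) _
        (Or.inr (Or.inr ⟨i, Nat.lt_succ_self i, φ', hφ', rfl⟩)) hvψ

end Pool.Agent.T9h6.BE
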